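import Pool.Agent.Helper79.KA.SmoothDefs

set_option autoImplicit false

/-!
Project KA (MP_0b9e0b_ag), module KA-15: the curve `y ^ p - y = t c x ^ a + x`, completed in the
weighted projective plane `P(p, a, 1)`, is smooth if `p` does not divide `a`.
-/

namespace Pool.Agent.Helper79.KA

open MvPolynomial
open Pool.Agent.Helper1.KA (Curve)

variable {p a : ℕ} {N M : Type} [Field N] [Field M] [Algebra N M] {t c : N}

theorem aeval_eqn (P : Fin 3 → M) : aeval P (eqn p a t c) =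
    P 1 ^ p - P 1 * P 2 ^ (a * (p - 1)) -
      (algebraMap N M t * algebraMap N M c * P 0 ^ a + P 0 * P 2 ^ (p * (a - 1))) := by
  simp [eqn]

theorem aeval_eqn_zero (hp : 2 ≤ p) (ha : 2 ≤ a) {P : Fin 3 → M} (h : P 2 = 0) :
    aeval P (eqn p a t c) = P 1 ^ p - algebraMap N M t * algebraMap N M c * P 0 ^ a := by
  have h1 : a * (p - 1) ≠ 0 := Nat.mul_ne_zero (by omega) (by omega)
  have h2 : p * (a - 1) ≠ 0 := Nat.mul_ne_zero (by omega) (by omega)
  rw [aeval_eqn, h, zero_pow h1, zero_pow h2]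
  ring

theorem aeval_eqn_ne (hp : 2 ≤ p) (ha : 2 ≤ a) {P : Fin 3 → M} (h : P 2 ≠ 0) :
    aeval P (eqn p a t c) = P 2 ^ (p * a) * ((P 1 / P 2 ^ a) ^ p - P 1 / P 2 ^ a -
      (algebraMap N M t * algebraMap N M c * (P 0 / P 2 ^ p) ^ a + P 0 / P 2 ^ p)) := by
  rw [aeval_eqn]
  have h1 : P 2 ^ (p * a) = P 2 ^ (a * (p - 1)) * P 2 ^ a := by
    rw [← pow_add]
    congr 1
    obtain ⟨q, rfl⟩ : ∃ q, p = q + 1 := ⟨p - 1, by omega⟩
    rw [Nat.add_sub_cancel]
    ring
  have h2 : P 2 ^ (p * a) = P 2 ^ (p * (a - 1)) * P 2 ^ p := by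
    rw [← pow_add]
    congr 1
    obtain ⟨q, rfl⟩ : ∃ q, a = q + 1 := ⟨a - 1, by omega⟩
    rw [Nat.add_sub_cancel]
    ring
  have h3 : P 2 ^ (p * a) * (P 1 / P 2 ^ a) ^ p = P 1 ^ p := by
    rw [div_pow, ← pow_mul, mul_comm a p]
    field_simp
  have h4 : P 2 ^ (p * a) * (P 0 / P 2 ^ p) ^ a = P 0 ^ a := by
    rw [div_pow, ← pow_mul]
    field_simp
  have h5 : P 2 ^ (p * a) * (P 1 / P 2 ^ a) = P 1 * P 2 ^ (a * (p - 1)) := by
    rw [h1]
    field_simp
  have h6 : P 2 ^ (p * a) * (P 0 / P 2 ^ p) = P 0 * P 2 ^ (p * (a - 1)) := by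
    rw [h2]
    field_simp
  linear_combination -h3 + h5 + algebraMap N M t * algebraMap N M c * h4 + h6

theorem aeval_pderiv_x (P : Fin 3 → M) : aeval P (pderiv 0 (eqn p a t c)) =
    -(algebraMap N M t * algebraMap N M c * (a * P 0 ^ (a - 1)) + P 2 ^ (p * (a - 1))) := by
  simp [eqn, pderiv_X, Derivation.leibniz_pow]

theorem aeval_pderiv_y [CharP N p] (P : Fin 3 → M) : aeval P (pderiv 1 (eqn p a t c)) =
    - P 2 ^ (a * (p - 1)) := by
  simp [eqn, pderiv_X, Derivation.leibniz_pow]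

theorem exists_bezout (hp : p.Prime) (ha : 2 ≤ a) (hpa : ¬ p ∣ a) :
    ∃ u v : ℕ, p * v = 1 + a * u := by
  have h1 : p.Coprime a := (Nat.Prime.coprime_iff_not_dvd hp).2 hpa
  obtain ⟨v, -, hv⟩ := Nat.exists_mul_mod_eq_one_of_coprime h1 (by omega)
  refine ⟨p * v / a, v, ?_⟩
  have := Nat.mod_add_div (p * v) a
  rw [hv] at this
  exact this.symm

theorem zero_cases (hp : p.Prime) (ha : 2 ≤ a) (ht : t ≠ 0) (hc : c ≠ 0) {P : Fin 3 → M}
    (hP : P ≠ 0) (h : aeval P (eqn p a t c) = 0) (h2 : P 2 = 0) :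
    P 0 ≠ 0 ∧ P 1 ≠ 0 ∧ P 1 ^ p = algebraMap N M t * algebraMap N M c * P 0 ^ a := by
  have ht' : algebraMap N M t ≠ 0 := by simpa using ht
  have hc' : algebraMap N M c ≠ 0 := by simpa using hc
  rw [aeval_eqn_zero hp.two_le ha h2, sub_eq_zero] at h
  have ha0 : a ≠ 0 := by omega
  have h01 : P 0 = 0 ↔ P 1 = 0 := by
    constructor
    · intro h0
      rw [h0, zero_pow ha0, mul_zero] at h
      exact eq_zero_of_pow_eq_zero h
    · intro h0
      rw [h0, zero_pow hp.ne_zero] at h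
      exact eq_zero_of_pow_eq_zero
        ((mul_eq_zero.1 h.symm).resolve_left (mul_ne_zero ht' hc'))
  have h0 : P 0 ≠ 0 := by
    intro h0
    apply hP
    funext i
    fin_cases i
    · exact h0
    · exact h01.1 h0
    · exact h2
  exact ⟨h0, fun h1 => h0 (h01.2 h1), h⟩

theorem curve_of_ne (hp : p.Prime) (ha : 2 ≤ a) {P : Fin 3 → M} (h2 : P 2 ≠ 0) :
    aeval P (eqn p a t c) = 0 ↔ (P 1 / P 2 ^ a) ^ p - P 1 / P 2 ^ a =
      algebraMap N M t * algebraMap N M c * (P 0 / P 2 ^ p) ^ a + P 0 / P 2 ^ p := by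
  rw [aeval_eqn_ne hp.two_le ha h2, mul_eq_zero, or_iff_right (pow_ne_zero _ h2), sub_eq_zero]

theorem points_iff (hp : p.Prime) (ha : 2 ≤ a) (hpa : ¬ p ∣ a) (ht : t ≠ 0) (hc : c ≠ 0)
    (x y : Option M) : Curve p a (algebraMap N M t) (algebraMap N M c) x y ↔
      ∃ P : Fin 3 → M, P ≠ 0 ∧ aeval P (eqn p a t c) = 0 ∧ pt p a P = (x, y) := by
  have ht' : algebraMap N M t ≠ 0 := by simpa using ht
  have hc' : algebraMap N M c ≠ 0 := by simpa using hc
  constructor
  · rintro (⟨rfl, rfl⟩ | ⟨u, w, rfl, rfl, h⟩)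
    · obtain ⟨i, j, hij⟩ := exists_bezout hp ha hpa
      set T := algebraMap N M t * algebraMap N M c with hT
      have hT0 : T ≠ 0 := mul_ne_zero ht' hc'
      refine ⟨![T ^ i, T ^ j, 0], ?_, ?_, ?_⟩
      · intro h0
        exact pow_ne_zero i hT0 (congrFun h0 0)
      · rw [aeval_eqn_zero hp.two_le ha rfl, sub_eq_zero]
        change (T ^ j) ^ p = T * (T ^ i) ^ a
        rw [← pow_mul, ← pow_mul, mul_comm j p, hij, pow_add, pow_one, mul_comm a i]
      · exact if_pos rfl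
    · refine ⟨![u, w, 1], ?_, ?_, ?_⟩
      · intro h0
        exact one_ne_zero (congrFun h0 2)
      · rw [curve_of_ne hp ha (by simp)]
        simpa using h
      · rw [pt, if_neg (by simp)]
        simp
  · rintro ⟨P, hP, h, h1⟩
    by_cases h2 : P 2 = 0
    · rw [pt, if_pos h2, Prod.mk.injEq] at h1
      exact Or.inl ⟨h1.1.symm, h1.2.symm⟩
    · rw [pt, if_neg h2, Prod.mk.injEq] at h1
      exact Or.inr ⟨_, _, h1.1.symm, h1.2.symm, (curve_of_ne hp ha h2).1 h⟩

theorem orbits_iff (hp : p.Prime) (ha : 2 ≤ a) (hpa : ¬ p ∣ a) (ht : t ≠ 0) (hc : c ≠ 0)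
    {P Q : Fin 3 → M} (hP : P ≠ 0) (hQ : Q ≠ 0) (hP' : aeval P (eqn p a t c) = 0)
    (hQ' : aeval Q (eqn p a t c) = 0) :
    pt p a P = pt p a Q ↔ ∃ s : M, Q 0 = s ^ p * P 0 ∧ Q 1 = s ^ a * P 1 ∧ Q 2 = s * P 2 := by
  have hp0 : p ≠ 0 := hp.ne_zero
  have ha0 : a ≠ 0 := by omega
  constructor
  · intro h
    by_cases h2 : P 2 = 0
    · have h3 : Q 2 = 0 := by
        by_contra h3
        rw [pt, if_pos h2, pt, if_neg h3, Prod.mk.injEq] at h
        exact absurd h.1.symm (Option.some_ne_none _)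
      obtain ⟨hP0, hP1, hPe⟩ := zero_cases hp ha ht hc hP hP' h2
      obtain ⟨hQ0, hQ1, hQe⟩ := zero_cases hp ha ht hc hQ hQ' h3
      obtain ⟨i, j, hij⟩ := exists_bezout hp ha hpa
      have hX0 : Q 0 / P 0 ≠ 0 := div_ne_zero hQ0 hP0
      have hY0 : Q 1 / P 1 ≠ 0 := div_ne_zero hQ1 hP1
      have hXY : (Q 1 / P 1) ^ p = (Q 0 / P 0) ^ a := by
        have ht' : algebraMap N M t ≠ 0 := by simpa using ht
        have hc' : algebraMap N M c ≠ 0 := by simpa using hc
        rw [div_pow, div_pow, hPe, hQe]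
        exact mul_div_mul_left _ _ (mul_ne_zero ht' hc')
      generalize hX : Q 0 / P 0 = X at *
      generalize hY : Q 1 / P 1 = Y at *
      refine ⟨X ^ j / Y ^ i, ?_, ?_, ?_⟩
      · have h4 : (X ^ j / Y ^ i) ^ p = X := by
          rw [div_pow, ← pow_mul, ← pow_mul, mul_comm i p, pow_mul Y, hXY, ← pow_mul X,
            mul_comm j p, hij, pow_add, pow_one, mul_div_assoc, div_self (pow_ne_zero _ hX0),
            mul_one]
        rw [h4, ← hX, div_mul_cancel₀ _ hP0]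
      · have h4 : (X ^ j / Y ^ i) ^ a = Y := by
          rw [div_pow, ← pow_mul, ← pow_mul, mul_comm j a, pow_mul X, ← hXY, ← pow_mul Y,
            hij, pow_add, pow_one, mul_comm i a, mul_div_assoc, div_self (pow_ne_zero _ hY0),
            mul_one]
        rw [h4, ← hY, div_mul_cancel₀ _ hP1]
      · rw [h2, h3, mul_zero]
    · have h3 : Q 2 ≠ 0 := by
        intro h3
        rw [pt, if_neg h2, pt, if_pos h3, Prod.mk.injEq] at h
        exact absurd h.1 (Option.some_ne_none _)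
      rw [pt, if_neg h2, pt, if_neg h3, Prod.mk.injEq, Option.some_inj, Option.some_inj,
        div_eq_div_iff (pow_ne_zero _ h2) (pow_ne_zero _ h3),
        div_eq_div_iff (pow_ne_zero _ h2) (pow_ne_zero _ h3)] at h
      refine ⟨Q 2 / P 2, ?_, ?_, ?_⟩
      · rw [div_pow]
        field_simp
        linear_combination -h.1
      · rw [div_pow]
        field_simp
        linear_combination -h.2
      · rw [div_mul_cancel₀ _ h2]
  · rintro ⟨s, h0, h1, h2⟩
    have hs : s ≠ 0 := by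
      rintro rfl
      apply hQ
      funext i
      fin_cases i
      · simpa [zero_pow hp0] using h0
      · simpa [zero_pow ha0] using h1
      · simpa using h2
    by_cases h3 : P 2 = 0
    · have h4 : Q 2 = 0 := by rw [h2, h3, mul_zero]
      rw [pt, pt, if_pos h3, if_pos h4]
    · have h4 : Q 2 ≠ 0 := by rw [h2]; exact mul_ne_zero hs h3
      rw [pt, pt, if_neg h3, if_neg h4, h0, h1, h2, mul_pow, mul_pow,
        mul_div_mul_left _ _ (pow_ne_zero _ hs), mul_div_mul_left _ _ (pow_ne_zero _ hs)]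

theorem smoothCurve (p a : ℕ) [Fact p.Prime] {N : Type} [Field N] [CharP N p] {t c : N}
    (ha : 2 ≤ a) (hpa : ¬ p ∣ a) (ht : t ≠ 0) (hc : c ≠ 0) : SmoothCurve p a t c := by
  have hp : p.Prime := Fact.out
  refine ⟨fun M _ _ x y => points_iff hp ha hpa ht hc x y,
    fun M _ _ P Q hP hQ hP' hQ' => orbits_iff hp ha hpa ht hc hP hQ hP' hQ',
    fun M _ _ P hP h => ?_, fun M _ _ P hP h => ?_⟩
  · by_cases h2 : P 2 = 0
    · obtain ⟨h0, h1, -⟩ := zero_cases hp ha ht hc hP h h2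
      exact Or.inr ⟨h0, h1, (Nat.Prime.coprime_iff_not_dvd hp).2 hpa⟩
    · exact Or.inl h2
  · by_cases h2 : P 2 = 0
    · obtain ⟨h0, h1, -⟩ := zero_cases hp ha ht hc hP h h2
      refine ⟨0, ?_⟩
      have h3 : p * (a - 1) ≠ 0 := Nat.mul_ne_zero hp.ne_zero (by omega)
      have ht' : algebraMap N M t ≠ 0 := by simpa using ht
      have hc' : algebraMap N M c ≠ 0 := by simpa using hc
      have : CharP M p := charP_of_injective_algebraMap (algebraMap N M).injective p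
      have h4 : (a : M) ≠ 0 := fun h => hpa ((CharP.cast_eq_zero_iff M p a).1 h)
      rw [aeval_pderiv_x, h2, zero_pow h3, add_zero, neg_ne_zero]
      exact mul_ne_zero (mul_ne_zero ht' hc') (mul_ne_zero h4 (pow_ne_zero _ h0))
    · refine ⟨1, ?_⟩
      rw [aeval_pderiv_y, neg_ne_zero]
      exact pow_ne_zero _ h2

/-- The curves of the product `XV p a c`. -/
theorem smoothCurve_ratFunc (p a : ℕ) [Fact p.Prime] {k : Type} [Field k] [CharP k p] {c : k}
    (ha : 2 ≤ a) (hpa : ¬ p ∣ a) (hc : c ≠ 0) :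
    SmoothCurve p a (RatFunc.X : RatFunc k) (RatFunc.C c) := by
  have : CharP (RatFunc k) p :=
    charP_of_injective_algebraMap (algebraMap k (RatFunc k)).injective p
  exact smoothCurve p a ha hpa RatFunc.X_ne_zero (by simpa using hc)

end Pool.Agent.Helper79.KA
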