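import Pool.Agent.Helper1.KA.Defs
import Mathlib.Algebra.MvPolynomial.PDeriv

set_option autoImplicit false

/-!
Project KA (MP_0b9e0b_ag), module KA-15: the equation of the curve `y ^ p - y = t c x ^ a + x` in
the weighted projective plane `P(p, a, 1)`, and what it means that it is smooth.
-/

namespace Pool.Agent.Helper79.KA

open MvPolynomial
open Pool.Agent.Helper1.KA (Curve)

/-- The form `y ^ p - y z ^ (a (p - 1)) - (t c x ^ a + x z ^ (p (a - 1)))`, homogeneous of degree
`p a` for the weights `p, a, 1` of the variables `x, y, z`, which are `X 0, X 1, X 2`. -/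
noncomputable def eqn (p a : ℕ) {N : Type} [Field N] (t c : N) : MvPolynomial (Fin 3) N :=
  X 1 ^ p - X 1 * X 2 ^ (a * (p - 1)) - (C t * C c * X 0 ^ a + X 0 * X 2 ^ (p * (a - 1)))

open scoped Classical in
/-- The coordinates `x / z ^ p, y / z ^ a` of the point `(x : y : z)` of `P(p, a, 1)`, infinite
if `z = 0`. -/
noncomputable def pt (p a : ℕ) {N : Type} [Field N] (P : Fin 3 → N) : Option N × Option N :=
  if P 2 = 0 then (none, none) else (some (P 0 / P 2 ^ p), some (P 1 / P 2 ^ a))

/-- `Curve p a t c` is the curve in the weighted projective plane `P(p, a, 1)` with the equation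
`eqn p a t c`: over every extension field, its points are the solutions of the equation different
from `0` modulo the group `G_m`, which acts freely; it does not contain the singular points
`(1 : 0 : 0), (0 : 1 : 0)` of the plane, and at every point of it some derivative of `eqn p a t c`
is not zero: it is a smooth curve. -/
structure SmoothCurve (p a : ℕ) {N : Type} [Field N] (t c : N) : Prop where
  points : ∀ (M : Type) [Field M] [Algebra N M] (x y : Option M),
    Curve p a (algebraMap N M t) (algebraMap N M c) x y ↔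
      ∃ P : Fin 3 → M, P ≠ 0 ∧ aeval P (eqn p a t c) = 0 ∧ pt p a P = (x, y)
  orbits : ∀ (M : Type) [Field M] [Algebra N M] (P Q : Fin 3 → M), P ≠ 0 → Q ≠ 0 →
    aeval P (eqn p a t c) = 0 → aeval Q (eqn p a t c) = 0 →
    (pt p a P = pt p a Q ↔ ∃ s : M, Q 0 = s ^ p * P 0 ∧ Q 1 = s ^ a * P 1 ∧ Q 2 = s * P 2)
  free : ∀ (M : Type) [Field M] [Algebra N M] (P : Fin 3 → M), P ≠ 0 →
    aeval P (eqn p a t c) = 0 → (P 2 ≠ 0 ∨ (P 0 ≠ 0 ∧ P 1 ≠ 0 ∧ p.Coprime a))
  smooth : ∀ (M : Type) [Field M] [Algebra N M] (P : Fin 3 → M), P ≠ 0 →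
    aeval P (eqn p a t c) = 0 → ∃ j, aeval P (pderiv j (eqn p a t c)) ≠ 0

end Pool.Agent.Helper79.KA
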